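import Pool.Agent.ARR.Fin2

set_option autoImplicit false
open Filter Classical

namespace Pool.Agent.Results.MP_991e92_nt.PowerSavingRange

/-- Artin's primitive root problem for almost all `n`, asymptotic formula with a power saving for all
`x` up to `exp (q ^ c)`, `q` the largest prime factor of `n`: all but at most
`N exp (-Y ^ κ) + C N exp (-c sqrt (log N log log N))` of the integers `0 < |n| ≤ N` satisfy, for
every prime `q ∣ n` and every integer `x` with `Y ≤ x ≤ exp (q ^ c)`: the number of primes `p ≤ x`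
with `n` a primitive root modulo `p` differs from `∑_{2 < p ≤ x} φ(p - 1) / (p - 1)` by at most
`x / (min x q) ^ (2 c)`. -/
theorem result :
    ∃ c : ℝ, 0 < c ∧ ∃ κ : ℝ, 0 < κ ∧ ∃ C : ℝ, 0 < C ∧ ∃ Y₀ : ℕ, ∀ N Y : ℕ, Y₀ ≤ Y →
      (((Finset.Icc (-(N : ℤ)) N).filter (fun n : ℤ => n ≠ 0 ∧
          ¬ (∀ q : ℕ, q.Prime → (q : ℤ) ∣ n → ∀ x : ℕ, Y ≤ x →
                (x : ℝ) ≤ Real.exp ((q : ℝ) ^ c) →
              |(((Finset.range (x + 1)).filter
                  (fun p : ℕ => p.Prime ∧ orderOf (n : ZMod p) = p - 1)).card : ℝ) -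
                ∑ p ∈ (Finset.range (x + 1)).filter (fun p : ℕ => p.Prime ∧ p ≠ 2),
                  ((Nat.totient (p - 1) : ℝ) / ((p - 1 : ℕ) : ℝ))| ≤
                (x : ℝ) / (min (x : ℝ) q) ^ (2 * c)))).card : ℝ)
        ≤ N * Real.exp (-((Y : ℝ) ^ κ)) +
          C * N * Real.exp (-(c * Real.sqrt (Real.log N * Real.log (Real.log N)))) := by
  obtain ⟨c, hc, κ, hκ, C, hC, Y₀, h⟩ := Pool.Agent.ARR.power_all
  refine ⟨c, hc, κ, hκ, C, hC, Y₀, fun N Y hY => ?_⟩
  have h1 := h N Y hY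
  unfold Pool.Agent.ARR.BBad Pool.Agent.Helper6.artinP Pool.Agent.Helper8.ArtinC.artinEC
    Pool.Agent.ARP.SS at h1
  convert h1

end Pool.Agent.Results.MP_991e92_nt.PowerSavingRange
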