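import Pool.Agent.ARR.Fin4

set_option autoImplicit false
open Filter Classical

namespace Pool.Agent.Results.MP_991e92_nt.PowerSavingSquareClass

/-- Artin's primitive root problem inside the square classes `n = b m ^ 2`, `b = 1` modulo `4`
squarefree, uniformly in `b`: asymptotic formula with a power saving for all `x` up to
`exp (q ^ c)`, `q` the largest prime factor of `m`.  With absolute constants, for every such `b` and
all `Y ≥ Y₀` with `Y ≥ ω(b) ^ 2`: all but at most
`M exp (-Y ^ κ) + C M exp (-c sqrt (log M log log M))` of the integers `m ≤ M` satisfy, for every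
prime `q ∣ m` and every integer `x` with `Y ≤ x ≤ exp (q ^ c)`: the number of primes `p ≤ x` with
`b m ^ 2` a primitive root modulo `p` differs from
`∑_{2 < p ≤ x} (φ(p - 1) / (p - 1)) (1 - (b / p))` by at most `x / (min x q) ^ (2 c)`. -/
theorem result :
    ∃ c : ℝ, 0 < c ∧ ∃ κ : ℝ, 0 < κ ∧ ∃ C : ℝ, 0 < C ∧ ∃ Y₀ : ℕ, ∀ b : ℤ, Squarefree b →
      b % 4 = 1 → ∀ M Y : ℕ, Y₀ ≤ Y → (b.natAbs.primeFactors.card) ^ 2 ≤ Y →
      (((Finset.Icc 1 M).filter (fun m : ℕ =>
          ¬ (∀ q : ℕ, q.Prime → q ∣ m → ∀ x : ℕ, Y ≤ x →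
                (x : ℝ) ≤ Real.exp ((q : ℝ) ^ c) →
              |(((Finset.range (x + 1)).filter
                  (fun p : ℕ => p.Prime ∧
                    orderOf ((b * (m : ℤ) ^ 2 : ℤ) : ZMod p) = p - 1)).card : ℝ) -
                ∑ p ∈ (Finset.range (x + 1)).filter (fun p : ℕ => p.Prime ∧ p ≠ 2),
                  ((Nat.totient (p - 1) : ℝ) / ((p - 1 : ℕ) : ℝ)) * (1 - (jacobiSym b p : ℝ))| ≤
                (x : ℝ) / (min (x : ℝ) q) ^ (2 * c)))).card : ℝ)
        ≤ M * Real.exp (-((Y : ℝ) ^ κ)) +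
          C * M * Real.exp (-(c * Real.sqrt (Real.log M * Real.log (Real.log M)))) := by
  obtain ⟨c, hc, κ, hκ, C, hC, Y₀, h⟩ := Pool.Agent.ARR.power_square_u
  refine ⟨c, hc, κ, hκ, C, hC, Y₀, fun b hb hb4 M Y hY hbY => ?_⟩
  have h1 := h b hb hb4 M Y hY hbY
  unfold Pool.Agent.ARR.BSq Pool.Agent.Helper6.artinP Pool.Agent.Helper6.artinE
    Pool.Agent.ARP.SS at h1
  convert h1

end Pool.Agent.Results.MP_991e92_nt.PowerSavingSquareClass
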