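import Pool.Agent.ARX.Res

set_option autoImplicit false
open Filter Classical

namespace Pool.Agent.Results.MP_991e92_nt.TinyExceptionalSet

/-- Artin's primitive root density with the correction factor: for every `k`, all but `N ^ δ` of
the integers `n = n' k ^ 2` with `n'` squarefree and `|n| ≤ N` have the predicted density up to
`ε`, simultaneously for all `x` from `exp ((log N) ^ (1 - τ))` up to `N ^ A`. -/
theorem result :
    ∀ A δ ε : ℝ, 0 < A → 0 < δ → 0 < ε → ∃ τ : ℝ, 0 < τ ∧ τ < 1 ∧ ∃ N₀ : ℕ, ∀ N : ℕ, N₀ ≤ N →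
      ∀ k : ℕ, 1 ≤ k →
        (((Finset.Icc (-(N : ℤ)) N).filter (fun n' : ℤ => Squarefree n' ∧
          (n' * (k : ℤ) ^ 2).natAbs ≤ N ∧
            ¬ (∀ x : ℕ, Real.exp ((Real.log N) ^ (1 - τ)) ≤ x → (x : ℝ) ≤ (N : ℝ) ^ A →
              |((((Finset.range (x + 1)).filter
                  (fun p : ℕ => p.Prime ∧
                    orderOf ((n' * (k : ℤ) ^ 2 : ℤ) : ZMod p) = p - 1)).card : ℕ) : ℝ) /
                  ((Nat.primeCounting x : ℕ) : ℝ) -
                (if n' % 4 = 1 then 1 - ((ArithmeticFunction.moebius n'.natAbs : ℤ) : ℝ) *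
                    ∏ q ∈ n'.natAbs.primeFactors, (1 / ((q : ℝ) ^ 2 - (q : ℝ) - 1)) else 1) *
                  ∏' p : Nat.Primes, (1 - 1 / (((p : ℕ) : ℝ) * (((p : ℕ) : ℝ) - 1)))| ≤ ε))).card : ℝ)
          ≤ (N : ℝ) ^ δ := by
  intro A δ ε hA hδ hε
  obtain ⟨τ, hτ, hτ1, N₀, h⟩ := Pool.Agent.ARX.square_part A δ ε hA hδ hε
  refine ⟨τ, hτ, hτ1, N₀, fun N hN k hk => ?_⟩
  refine le_trans ?_ (h N hN k hk)
  refine Nat.cast_le.mpr (Finset.card_le_card ?_)
  intro n' hn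
  rw [Finset.mem_filter] at hn ⊢
  obtain ⟨h1, h2, h3, h4⟩ := hn
  refine ⟨h1, h2, h3, fun hcon => h4 ?_⟩
  intro x hx1 hx2
  exact hcon x ⟨hx1, hx2⟩

end Pool.Agent.Results.MP_991e92_nt.TinyExceptionalSet
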