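import Pool.Agent.ARX.Res

set_option autoImplicit false
open Filter Classical

namespace Pool.Agent.Results.MP_991e92_nt.TinyExceptionsSquareClass

/-- Artin's primitive root density with the correction factor in a fixed square class: for every
squarefree `b = 1` modulo `4`, `b ≠ 1`, and every `k`, all but `M ^ δ` of the integers
`n = b (k l) ^ 2` with `l` squarefree and `k l ≤ M` have the predicted density up to `ε`,
simultaneously for all `x` from `exp ((log M) ^ (1 - τ))` up to `M ^ A`. -/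
theorem result :
    ∀ b : ℤ, Squarefree b → b % 4 = 1 → b ≠ 1 →
    ∀ A δ ε : ℝ, 0 < A → 0 < δ → 0 < ε → ∃ τ : ℝ, 0 < τ ∧ τ < 1 ∧ ∃ M₀ : ℕ, ∀ M : ℕ, M₀ ≤ M →
      ∀ k : ℕ, 1 ≤ k →
        (((Finset.Icc 1 M).filter (fun l : ℕ => Squarefree l ∧ k * l ≤ M ∧
            ¬ (∀ x : ℕ, Real.exp ((Real.log M) ^ (1 - τ)) ≤ x → (x : ℝ) ≤ (M : ℝ) ^ A →
              |((((Finset.range (x + 1)).filter
                  (fun p : ℕ => p.Prime ∧
                    orderOf ((b * ((k * l : ℕ) : ℤ) ^ 2 : ℤ) : ZMod p) = p - 1)).card : ℕ) : ℝ) /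
                  ((Nat.primeCounting x : ℕ) : ℝ) -
                (1 - ((ArithmeticFunction.moebius b.natAbs : ℤ) : ℝ) *
                    ∏ q ∈ b.natAbs.primeFactors, (1 / ((q : ℝ) ^ 2 - (q : ℝ) - 1))) *
                  ∏' p : Nat.Primes, (1 - 1 / (((p : ℕ) : ℝ) * (((p : ℕ) : ℝ) - 1)))| ≤ ε))).card : ℝ)
          ≤ (M : ℝ) ^ δ := by
  intro b hb hb4 hb1 A δ ε hA hδ hε
  obtain ⟨τ, hτ, hτ1, M₀, h⟩ := Pool.Agent.ARX.square_class b hb hb4 hb1 A δ ε hA hδ hε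
  refine ⟨τ, hτ, hτ1, M₀, fun M hM k hk => ?_⟩
  refine le_trans ?_ ((h M hM).1 k hk)
  refine Nat.cast_le.mpr (Finset.card_le_card ?_)
  intro l hl
  rw [Finset.mem_filter] at hl ⊢
  obtain ⟨h1, h2, h3, h4⟩ := hl
  refine ⟨h1, h2, h3, fun hcon => h4 ?_⟩
  intro x hx1 hx2
  have h5 := hcon x ⟨hx1, hx2⟩
  unfold Pool.Agent.ARX.share Pool.Agent.ARX.dens at h5
  rw [if_pos hb4] at h5
  exact h5

end Pool.Agent.Results.MP_991e92_nt.TinyExceptionsSquareClass
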